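import Pool.Agent.TH179.SD.Geo

/-!
Project SD (helper179), job G1: the compact Hausdorff space with seven charts.
-/

set_option autoImplicit false

open scoped ContDiff Topology ComplexConjugate
open Set

noncomputable section

namespace Pool.Agent.TH11.SD1

open Pool.Agent.TH179.SD

/-! ### linear algebra of the coordinates -/

/-- scaling of the two factors -/
def sc (x y : ℝ) (w : V) : V :=
  ![⟨x * (w 0).re, x * (w 0).im⟩, ⟨x * (w 1).re, y * (w 1).im⟩, ⟨y * (w 2).re, y * (w 2).im⟩,
    ⟨y * (w 3).re, y * (w 3).im⟩]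

/-- reflections -/
def rho (x y : Bool) (w : V) : V :=
  ![⟨if x then -(w 0).re else (w 0).re, (w 0).im⟩, w 1,
    ⟨if y then -(w 2).re else (w 2).re, (w 2).im⟩, w 3]

theorem V_ext {v w : V} (h : ∀ i, (v i).re = (w i).re ∧ (v i).im = (w i).im) : v = w := by
  funext i
  exact Complex.ext (h i).1 (h i).2

theorem sc_sc (x y x' y' : ℝ) (w : V) : sc x y (sc x' y' w) = sc (x * x') (y * y') w := by
  apply V_ext
  intro i
  fin_cases i <;> simp [sc, mul_assoc]

theorem sc_one (w : V) : sc 1 1 w = w := by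
  apply V_ext
  intro i
  fin_cases i <;> simp [sc]

theorem rho_sc (x y : Bool) (a b : ℝ) (w : V) : rho x y (sc a b w) = sc a b (rho x y w) := by
  apply V_ext
  intro i
  cases x <;> cases y <;> fin_cases i <;> simp [sc, rho]

theorem rho_rho (x y x' y' : Bool) (w : V) :
    rho x y (rho x' y' w) = rho (xor x' x) (xor y' y) w := by
  apply V_ext
  intro i
  cases x <;> cases y <;> cases x' <;> cases y' <;> fin_cases i <;> simp [rho]

theorem rho_ff (w : V) : rho false false w = w := by
  apply V_ext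
  intro i
  fin_cases i <;> simp [rho]

theorem na_sc (x y : ℝ) (w : V) : na (sc x y w) = x ^ 2 * na w := by
  simp [na, sc]; ring

theorem nb_sc (x y : ℝ) (w : V) : nb (sc x y w) = y ^ 2 * nb w := by
  simp [nb, sc]; ring

theorem na_rho (x y : Bool) (w : V) : na (rho x y w) = na w := by
  cases x <;> simp [na, rho]

theorem nb_rho (x y : Bool) (w : V) : nb (rho x y w) = nb w := by
  cases y <;> simp [nb, rho]

theorem na_nonneg (w : V) : 0 ≤ na w := by unfold na; positivity

theorem nb_nonneg (w : V) : 0 ≤ nb w := by unfold nb; positivity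

theorem cont_na : Continuous na := by
  unfold na; fun_prop

theorem cont_nb : Continuous nb := by
  unfold nb; fun_prop

theorem cont_mk {T : Type} [TopologicalSpace T] {f g : T → ℝ} (hf : Continuous f)
    (hg : Continuous g) : Continuous (fun t => (⟨f t, g t⟩ : ℂ)) :=
  Complex.equivRealProdCLM.symm.continuous.comp (hf.prodMk hg)

theorem cont_sc : Continuous (fun p : ℝ × ℝ × V => sc p.1 p.2.1 p.2.2) := by
  apply continuous_pi
  intro i
  fin_cases i
  · exact cont_mk (by fun_prop) (by fun_prop)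
  · exact cont_mk (by fun_prop) (by fun_prop)
  · exact cont_mk (by fun_prop) (by fun_prop)
  · exact cont_mk (by fun_prop) (by fun_prop)

theorem cont_rho (x y : Bool) : Continuous (rho x y) := by
  apply continuous_pi
  intro i
  fin_cases i
  · cases x
    · exact cont_mk (by simp; fun_prop) (by fun_prop)
    · exact cont_mk (by simp; fun_prop) (by fun_prop)
  · change Continuous (fun w : V => w 1); fun_prop
  · cases y
    · exact cont_mk (by simp; fun_prop) (by fun_prop)
    · exact cont_mk (by simp; fun_prop) (by fun_prop)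
  · change Continuous (fun w : V => w 3); fun_prop

/-! ### the product of two spheres -/

/-- flip -/
def fa (x : Bool) (t : ℝ) : ℝ := if x then 1 - t else t

theorem fa_fa (x : Bool) (t : ℝ) : fa x (fa x t) = t := by cases x <;> simp [fa]

theorem fa_mul (x : Bool) (t : ℝ) : fa x t * (1 - fa x t) = t * (1 - t) := by
  cases x <;> simp [fa]; ring

theorem cont_fa (x : Bool) : Continuous (fa x) := by
  unfold fa; cases x <;> simp <;> fun_prop

/-- the product of the spheres -/
def isX (p : ℝ × ℝ × V) : Prop :=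
  na p.2.2 = p.1 * (1 - p.1) ∧ nb p.2.2 = p.2.1 * (1 - p.2.1)

/-- parametrisations -/
def XI (x y : Bool) (q : V) : ℝ × ℝ × V :=
  (fa x (1 + na q)⁻¹, fa y (1 + nb q)⁻¹, sc (1 + na q)⁻¹ (1 + nb q)⁻¹ (rho x y q))

/-- coordinates -/
def XF (x y : Bool) (p : ℝ × ℝ × V) : V := rho x y (sc (fa x p.1)⁻¹ (fa y p.2.1)⁻¹ p.2.2)

/-- transitions -/
def tq (x y : Bool) (q : V) : V :=
  rho x y (sc (if x then (na q)⁻¹ else 1) (if y then (nb q)⁻¹ else 1) q)

theorem pos_na (q : V) : 0 < 1 + na q := by have := na_nonneg q; linarith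

theorem pos_nb (q : V) : 0 < 1 + nb q := by have := nb_nonneg q; linarith

theorem aux1 {n : ℝ} (h : 0 < 1 + n) : n * (1 + n)⁻¹ = 1 - (1 + n)⁻¹ := by
  field_simp; ring

theorem XI_isX (x y : Bool) (q : V) : isX (XI x y q) := by
  constructor
  · simp only [XI]
    rw [na_sc, na_rho, fa_mul, ← aux1 (pos_na q)]
    ring
  · simp only [XI]
    rw [nb_sc, nb_rho, fa_mul, ← aux1 (pos_nb q)]
    ring

theorem aux2 (x x' : Bool) {n : ℝ} (h : 0 < 1 + n) :
    (fa x' (fa x (1 + n)⁻¹))⁻¹ * (1 + n)⁻¹ = if xor x x' then n⁻¹ else 1 := by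
  have hA : (1 + n)⁻¹ ≠ 0 := inv_ne_zero h.ne'
  cases x <;> cases x'
  · simp only [fa]; simp [h.ne']
  · simp only [fa]
    simp only [Bool.false_eq_true, if_false, if_true, Bool.false_xor]
    rw [← aux1 h, mul_inv, mul_assoc, inv_mul_cancel₀ hA, mul_one]
  · simp only [fa]
    simp only [Bool.false_eq_true, if_false, if_true, Bool.xor_false]
    rw [← aux1 h, mul_inv, mul_assoc, inv_mul_cancel₀ hA, mul_one]
  · simp only [fa]; simp [h.ne']

theorem aux3 (x x' : Bool) {n : ℝ} (h : 0 < 1 + n) :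
    fa x' (fa x (1 + n)⁻¹) ≠ 0 ↔ (xor x x' = true → n ≠ 0) := by
  have hA : (1 + n)⁻¹ ≠ 0 := inv_ne_zero h.ne'
  cases x <;> cases x'
  · simp only [fa]; simp [h.ne']
  · simp only [fa]
    simp only [Bool.false_eq_true, if_false, if_true, Bool.false_xor, true_imp_iff]
    rw [← aux1 h]
    exact ⟨fun h1 => left_ne_zero_of_mul h1, fun h1 => mul_ne_zero h1 hA⟩
  · simp only [fa]
    simp only [Bool.false_eq_true, if_false, if_true, Bool.xor_false, true_imp_iff]
    rw [← aux1 h]
    exact ⟨fun h1 => left_ne_zero_of_mul h1, fun h1 => mul_ne_zero h1 hA⟩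
  · simp only [fa]; simp [h.ne']

theorem XF_XI' (x y x' y' : Bool) (q : V) : XF x' y' (XI x y q) = tq (xor x x') (xor y y') q := by
  unfold XF XI tq
  simp only
  rw [sc_sc, aux2 x x' (pos_na q), aux2 y y' (pos_nb q), ← rho_sc, rho_rho]

theorem tq_ff (q : V) : tq false false q = q := by
  unfold tq
  rw [rho_ff]
  simp only [Bool.false_eq_true, if_false]
  exact sc_one q

theorem XF_XI (x y : Bool) (q : V) : XF x y (XI x y q) = q := by
  rw [XF_XI', Bool.xor_self, Bool.xor_self, tq_ff]

theorem XI_XF (x y : Bool) {p : ℝ × ℝ × V} (hp : isX p) (h1 : fa x p.1 ≠ 0)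
    (h2 : fa y p.2.1 ≠ 0) : XI x y (XF x y p) = p := by
  have e1 : 1 + na (XF x y p) = (fa x p.1)⁻¹ := by
    unfold XF
    rw [na_rho, na_sc, hp.1, ← fa_mul x p.1]
    field_simp
    ring
  have e2 : 1 + nb (XF x y p) = (fa y p.2.1)⁻¹ := by
    unfold XF
    rw [nb_rho, nb_sc, hp.2, ← fa_mul y p.2.1]
    field_simp
    ring
  unfold XI
  rw [e1, e2, inv_inv, inv_inv, fa_fa, fa_fa]
  unfold XF
  rw [rho_rho, Bool.xor_self, Bool.xor_self, rho_ff, sc_sc, mul_inv_cancel₀ h1,
    mul_inv_cancel₀ h2, sc_one]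

theorem XI_tq (x y : Bool) (q : V) (h1 : x = true → na q ≠ 0) (h2 : y = true → nb q ≠ 0) :
    XI false false (tq x y q) = XI x y q := by
  have e : tq x y q = XF false false (XI x y q) := by
    rw [XF_XI', Bool.xor_false, Bool.xor_false]
  rw [e]
  refine XI_XF false false (XI_isX x y q) ?_ ?_
  · exact (aux3 x false (pos_na q)).mpr (by rw [Bool.xor_false]; exact h1)
  · exact (aux3 y false (pos_nb q)).mpr (by rw [Bool.xor_false]; exact h2)

theorem cont_XI (x y : Bool) : Continuous (XI x y) := by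
  have h1 : Continuous (fun q : V => (1 + na q)⁻¹) :=
    (continuous_const.add cont_na).inv₀ (fun q => (pos_na q).ne')
  have h2 : Continuous (fun q : V => (1 + nb q)⁻¹) :=
    (continuous_const.add cont_nb).inv₀ (fun q => (pos_nb q).ne')
  exact ((cont_fa x).comp h1).prodMk (((cont_fa y).comp h2).prodMk
    (cont_sc.comp (h1.prodMk (h2.prodMk (cont_rho x y)))))

theorem cont_XF (x y : Bool) : ContinuousOn (XF x y) {p | fa x p.1 ≠ 0 ∧ fa y p.2.1 ≠ 0} := by
  have h1 : ContinuousOn (fun p : ℝ × ℝ × V => (fa x p.1)⁻¹) {p | fa x p.1 ≠ 0 ∧ fa y p.2.1 ≠ 0} :=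
    ((cont_fa x).comp continuous_fst).continuousOn.inv₀ (fun p hp => hp.1)
  have h2 : ContinuousOn (fun p : ℝ × ℝ × V => (fa y p.2.1)⁻¹)
      {p | fa x p.1 ≠ 0 ∧ fa y p.2.1 ≠ 0} :=
    ((cont_fa y).comp (continuous_fst.comp continuous_snd)).continuousOn.inv₀ (fun p hp => hp.2)
  exact ((cont_rho x y).comp cont_sc).comp_continuousOn
    (h1.prodMk (h2.prodMk (continuous_snd.comp continuous_snd).continuousOn))

theorem isX_mem {p : ℝ × ℝ × V} (hp : isX p) : (0 ≤ p.1 ∧ p.1 ≤ 1) ∧ (0 ≤ p.2.1 ∧ p.2.1 ≤ 1) := by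
  have h1 := hp.1 ▸ na_nonneg p.2.2
  have h2 := hp.2 ▸ nb_nonneg p.2.2
  refine ⟨⟨?_, ?_⟩, ⟨?_, ?_⟩⟩ <;> nlinarith

/-! ### the function `Q` -/

/-- `αβ w` -/
def W (p : ℝ × ℝ × V) : V := sc p.2.1 p.1 p.2.2

/-- denominators -/
def Dp (p : ℝ × ℝ × V) : ℝ := p.1 * (1 - p.2.1) + p.2.1 * (1 - p.1)

/-- the matrix -/
def Qf (p : ℝ × ℝ × V) (i k : Fin 4) : ℂ := W p i * conj (W p k) / (Dp p : ℂ)

theorem sum_norm (w : V) : ∑ i, w i * conj (w i) = ((na w + nb w : ℝ) : ℂ) := by
  simp only [Complex.mul_conj, Complex.normSq_apply, Fin.sum_univ_four, na, nb]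
  push_cast
  ring

theorem W_norm {p : ℝ × ℝ × V} (hp : isX p) : na (W p) + nb (W p) = p.1 * p.2.1 * Dp p := by
  unfold W Dp
  rw [na_sc, nb_sc, hp.1, hp.2]
  ring

theorem Dp_nonneg {p : ℝ × ℝ × V} (hp : isX p) : 0 ≤ Dp p := by
  obtain ⟨⟨h1, h2⟩, h3, h4⟩ := isX_mem hp
  unfold Dp
  have := mul_nonneg h1 (sub_nonneg.mpr h4)
  have := mul_nonneg h3 (sub_nonneg.mpr h2)
  linarith

theorem Dp_zero {p : ℝ × ℝ × V} (hp : isX p) (h : Dp p = 0) (h1 : ¬ (p.1 = 1 ∧ p.2.1 = 1)) :
    p.1 = 0 ∧ p.2.1 = 0 := by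
  obtain ⟨⟨h2, h3⟩, h4, h5⟩ := isX_mem hp
  unfold Dp at h
  have e1 := mul_nonneg h2 (sub_nonneg.mpr h5)
  have e2 := mul_nonneg h4 (sub_nonneg.mpr h3)
  have e3 : p.1 * (1 - p.2.1) = 0 := by linarith
  have e4 : p.2.1 * (1 - p.1) = 0 := by linarith
  rcases mul_eq_zero.mp e3 with e | e <;> rcases mul_eq_zero.mp e4 with f | f
  · exact ⟨e, f⟩
  · exfalso; linarith
  · exfalso; linarith
  · exact absurd ⟨by linarith, by linarith⟩ h1

theorem norm_sq_le (w : V) (i : Fin 4) : ‖w i‖ ^ 2 ≤ na w + nb w := by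
  have h := sum_norm w
  have h1 : ((∑ i, ‖w i‖ ^ 2 : ℝ) : ℂ) = ((na w + nb w : ℝ) : ℂ) := by
    rw [← h]
    push_cast
    refine Finset.sum_congr rfl fun i _ => ?_
    rw [Complex.mul_conj, Complex.normSq_eq_norm_sq]
    push_cast
    rfl
  rw [← Complex.ofReal_injective h1]
  exact Finset.single_le_sum (f := fun i => ‖w i‖ ^ 2) (fun i _ => by positivity) (Finset.mem_univ i)

theorem W_zero {p : ℝ × ℝ × V} (hp : isX p) (h : p.1 * p.2.1 = 0 ∨ Dp p = 0) : W p = 0 := by
  have h1 : na (W p) + nb (W p) = 0 := by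
    rw [W_norm hp]; rcases h with h | h <;> rw [h] <;> ring
  funext i
  have h2 := norm_sq_le (W p) i
  rw [h1] at h2
  have h3 : ‖W p i‖ ^ 2 = 0 := le_antisymm h2 (by positivity)
  exact norm_eq_zero.mp (pow_eq_zero_iff (by norm_num) |>.mp h3)

theorem Qf_bound {p : ℝ × ℝ × V} (hp : isX p) (i k : Fin 4) : ‖Qf p i k‖ ≤ p.1 * p.2.1 := by
  obtain ⟨⟨h2, h3⟩, h4, h5⟩ := isX_mem hp
  have hD := Dp_nonneg hp
  unfold Qf
  rw [norm_div, norm_mul, RCLike.norm_conj, Complex.norm_real, Real.norm_of_nonneg hD]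
  have e1 := norm_sq_le (W p) i
  have e2 := norm_sq_le (W p) k
  rw [W_norm hp] at e1 e2
  rcases hD.eq_or_lt with h0 | h0
  · rw [← h0, div_zero]; exact mul_nonneg h2 h4
  · rw [div_le_iff₀ h0]
    nlinarith [sq_nonneg (‖W p i‖ - ‖W p k‖)]

theorem cont_W : Continuous W :=
  cont_sc.comp ((continuous_fst.comp continuous_snd).prodMk (continuous_fst.prodMk
    (continuous_snd.comp continuous_snd)))

theorem cont_Dp : Continuous Dp := by unfold Dp; fun_prop

theorem cont_Qf {T : Type} [TopologicalSpace T] {f : T → ℝ × ℝ × V} (hf : Continuous f)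
    (hX : ∀ t, isX (f t)) (h1 : ∀ t, ¬ ((f t).1 = 1 ∧ (f t).2.1 = 1)) (i k : Fin 4) :
    Continuous (fun t => Qf (f t) i k) := by
  rw [continuous_iff_continuousAt]
  intro t
  by_cases hD : Dp (f t) = 0
  · obtain ⟨h2, h3⟩ := Dp_zero (hX t) hD (h1 t)
    have h4 : Qf (f t) i k = 0 := by
      unfold Qf; rw [hD]; simp
    change Filter.Tendsto (fun t => Qf (f t) i k) (𝓝 t) (𝓝 (Qf (f t) i k))
    rw [h4]
    refine squeeze_zero_norm (fun t => Qf_bound (hX t) i k) ?_
    have h5 : Continuous (fun t => (f t).1 * (f t).2.1) :=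
      (continuous_fst.comp hf).mul ((continuous_fst.comp continuous_snd).comp hf)
    have h6 := h5.tendsto t
    rw [h2, zero_mul] at h6
    exact h6
  · have h5 : Continuous (fun t => W (f t) i * conj (W (f t) k)) :=
      ((continuous_apply i).comp (cont_W.comp hf)).mul
        (Complex.continuous_conj.comp ((continuous_apply k).comp (cont_W.comp hf)))
    have h6 : Continuous (fun t => ((Dp (f t) : ℝ) : ℂ)) :=
      Complex.continuous_ofReal.comp (cont_Dp.comp hf)
    exact h5.continuousAt.div h6.continuousAt (by exact_mod_cast hD)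

/-! ### the space -/

/-- the ambient space -/
abbrev Amb : Type := (ℝ × ℝ × V) × (Fin 4 → Fin 4 → ℂ)

/-- the blow-up -/
def MS : Set Amb := {m | isX m.1 ∧ (∀ i k, m.2 k i = conj (m.2 i k)) ∧
  (∀ i j k l, m.2 i j * m.2 k l = m.2 i l * m.2 k j) ∧
  (∑ i, m.2 i i = ((m.1.1 * m.1.2.1 : ℝ) : ℂ)) ∧
  ∀ i k l, W m.1 i * m.2 k l = W m.1 k * m.2 i l}

theorem MS_closed : IsClosed MS := by
  have c2 : ∀ i k : Fin 4, Continuous (fun m : Amb => m.2 i k) := fun i k =>
    (continuous_apply k).comp ((continuous_apply i).comp continuous_snd)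
  have cW : ∀ i : Fin 4, Continuous (fun m : Amb => W m.1 i) := fun i =>
    (continuous_apply i).comp (cont_W.comp continuous_fst)
  have c1 : Continuous (fun m : Amb => m.1.1) := continuous_fst.comp continuous_fst
  have c1' : Continuous (fun m : Amb => m.1.2.1) :=
    continuous_fst.comp (continuous_snd.comp continuous_fst)
  have c1'' : Continuous (fun m : Amb => m.1.2.2) :=
    continuous_snd.comp (continuous_snd.comp continuous_fst)
  have e : MS = {m : Amb | na m.1.2.2 = m.1.1 * (1 - m.1.1)} ∩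
      ({m : Amb | nb m.1.2.2 = m.1.2.1 * (1 - m.1.2.1)} ∩
      ((⋂ i, ⋂ k, {m : Amb | m.2 k i = conj (m.2 i k)}) ∩
      ((⋂ i, ⋂ j, ⋂ k, ⋂ l, {m : Amb | m.2 i j * m.2 k l = m.2 i l * m.2 k j}) ∩
      ({m : Amb | ∑ i, m.2 i i = ((m.1.1 * m.1.2.1 : ℝ) : ℂ)} ∩
      (⋂ i, ⋂ k, ⋂ l, {m : Amb | W m.1 i * m.2 k l = W m.1 k * m.2 i l}))))) := by
    ext m
    simp only [MS, isX, mem_setOf_eq, mem_inter_iff, mem_iInter]
    tauto
  rw [e]
  refine (isClosed_eq (cont_na.comp c1'') (c1.mul (continuous_const.sub c1))).inter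
    ((isClosed_eq (cont_nb.comp c1'') (c1'.mul (continuous_const.sub c1'))).inter
    (IsClosed.inter ?_ (IsClosed.inter ?_ (IsClosed.inter ?_ ?_))))
  · exact isClosed_iInter fun i => isClosed_iInter fun k =>
      isClosed_eq (c2 k i) (Complex.continuous_conj.comp (c2 i k))
  · exact isClosed_iInter fun i => isClosed_iInter fun j => isClosed_iInter fun k =>
      isClosed_iInter fun l => isClosed_eq ((c2 i j).mul (c2 k l)) ((c2 i l).mul (c2 k j))
  · exact isClosed_eq (continuous_finset_sum _ fun i _ => c2 i i)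
      (Complex.continuous_ofReal.comp (c1.mul c1'))
  · exact isClosed_iInter fun i => isClosed_iInter fun k => isClosed_iInter fun l =>
      isClosed_eq ((cW i).mul (c2 k l)) ((cW k).mul (c2 i l))

theorem Q_norm {m : Amb} (hm : m ∈ MS) : ∑ i, ∑ k, ‖m.2 i k‖ ^ 2 = (m.1.1 * m.1.2.1) ^ 2 := by
  obtain ⟨-, h2, h3, h4, -⟩ := hm
  have h : ((∑ i, ∑ k, ‖m.2 i k‖ ^ 2 : ℝ) : ℂ) = (((m.1.1 * m.1.2.1) ^ 2 : ℝ) : ℂ) := by
    rw [Complex.ofReal_pow, ← h4, sq, Finset.sum_mul_sum]
    push_cast
    refine Finset.sum_congr rfl fun i _ => Finset.sum_congr rfl fun k _ => ?_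
    have h5 := h3 i k k i
    rw [h2 i k, Complex.mul_conj, Complex.normSq_eq_norm_sq] at h5
    rw [← h5]
    push_cast
    rfl
  exact Complex.ofReal_injective h

theorem Q_le {m : Amb} (hm : m ∈ MS) (i k : Fin 4) : ‖m.2 i k‖ ^ 2 ≤ (m.1.1 * m.1.2.1) ^ 2 := by
  rw [← Q_norm hm]
  calc ‖m.2 i k‖ ^ 2 ≤ ∑ k, ‖m.2 i k‖ ^ 2 :=
        Finset.single_le_sum (f := fun k => ‖m.2 i k‖ ^ 2) (fun k _ => by positivity)
          (Finset.mem_univ k)
    _ ≤ _ := Finset.single_le_sum (f := fun i => ∑ k, ‖m.2 i k‖ ^ 2)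
          (fun i _ => Finset.sum_nonneg fun k _ => by positivity) (Finset.mem_univ i)

theorem MS_bounded : MS ⊆ Metric.closedBall 0 1 := by
  intro m hm
  obtain ⟨⟨h2, h3⟩, h4, h5⟩ := isX_mem hm.1
  have h6 : m.1.1 * m.1.2.1 ≤ 1 := by nlinarith
  have h7 : 0 ≤ m.1.1 * m.1.2.1 := mul_nonneg h2 h4
  rw [mem_closedBall_zero_iff]
  refine norm_prod_le_iff.mpr ⟨norm_prod_le_iff.mpr ⟨?_, norm_prod_le_iff.mpr ⟨?_, ?_⟩⟩, ?_⟩
  · rw [Real.norm_of_nonneg h2]; exact h3
  · rw [Real.norm_of_nonneg h4]; exact h5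
  · refine (pi_norm_le_iff_of_nonneg zero_le_one).mpr fun i => ?_
    have h8 := norm_sq_le m.1.2.2 i
    rw [hm.1.1, hm.1.2] at h8
    have h9 : ‖m.1.2.2 i‖ ^ 2 ≤ 1 := by nlinarith [sq_nonneg (m.1.1 - 1/2), sq_nonneg (m.1.2.1 - 1/2)]
    nlinarith [norm_nonneg (m.1.2.2 i)]
  · refine (pi_norm_le_iff_of_nonneg zero_le_one).mpr fun i =>
      (pi_norm_le_iff_of_nonneg zero_le_one).mpr fun k => ?_
    have h8 := Q_le hm i k
    have h9 : ‖m.2 i k‖ ^ 2 ≤ 1 := by nlinarith
    nlinarith [norm_nonneg (m.2 i k)]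

theorem MS_compact : IsCompact MS :=
  (isCompact_closedBall (0 : Amb) 1).of_isClosed_subset MS_closed MS_bounded

theorem Q_eq {m : Amb} (hm : m ∈ MS) (h1 : ¬ (m.1.1 = 1 ∧ m.1.2.1 = 1)) (i l : Fin 4) :
    m.2 i l = Qf m.1 i l := by
  by_cases h0 : m.1.1 * m.1.2.1 = 0
  · have h2 := Q_le hm i l
    rw [h0] at h2
    have h3 : ‖m.2 i l‖ ^ 2 = 0 := le_antisymm (by simpa using h2) (by positivity)
    have h4 : m.2 i l = 0 := norm_eq_zero.mp (pow_eq_zero_iff (by norm_num) |>.mp h3)
    unfold Qf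
    rw [h4, W_zero hm.1 (Or.inl h0)]
    simp
  · have hD : Dp m.1 ≠ 0 := by
      intro hD
      obtain ⟨e1, -⟩ := Dp_zero hm.1 hD h1
      exact h0 (by rw [e1, zero_mul])
    obtain ⟨hX, h2, h3, h4, h5⟩ := hm
    have key : ∀ k, m.2 i l * (W m.1 k * conj (W m.1 k)) = W m.1 i * conj (W m.1 l) * m.2 k k := by
      intro k
      have e1 := h5 i k l
      have e2 := congrArg conj (h5 l k k)
      rw [map_mul, map_mul, ← h2 k k, ← h2 l k] at e2
      calc m.2 i l * (W m.1 k * conj (W m.1 k)) = (W m.1 k * m.2 i l) * conj (W m.1 k) := by ring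
        _ = W m.1 i * (conj (W m.1 k) * m.2 k l) := by rw [← e1]; ring
        _ = W m.1 i * conj (W m.1 l) * m.2 k k := by rw [← e2]; ring
    have hs := Finset.sum_congr rfl (fun k (_ : k ∈ Finset.univ) => key k)
    rw [← Finset.mul_sum, ← Finset.mul_sum, h4, sum_norm, W_norm hX] at hs
    unfold Qf
    have hDc : ((Dp m.1 : ℝ) : ℂ) ≠ 0 := by exact_mod_cast hD
    have h0c : ((m.1.1 * m.1.2.1 : ℝ) : ℂ) ≠ 0 := by exact_mod_cast h0
    rw [eq_div_iff hDc]
    apply mul_right_cancel₀ h0c
    rw [← hs]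
    push_cast
    ring

theorem Qf_mem {p : ℝ × ℝ × V} (hp : isX p) (h1 : ¬ (p.1 = 1 ∧ p.2.1 = 1)) :
    ((p, Qf p) : Amb) ∈ MS := by
  refine ⟨hp, ?_, ?_, ?_, ?_⟩
  · intro i k
    simp only [Qf]
    rw [map_div₀, map_mul, Complex.conj_conj, Complex.conj_ofReal]
    ring
  · intro i j k l
    simp only [Qf]
    ring
  · simp only [Qf]
    rw [← Finset.sum_div, sum_norm, W_norm hp]
    by_cases hD : Dp p = 0
    · obtain ⟨e1, e2⟩ := Dp_zero hp hD h1
      rw [hD, e1]; simp
    · have hDc : ((Dp p : ℝ) : ℂ) ≠ 0 := by exact_mod_cast hD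
      rw [div_eq_iff hDc]
      push_cast
      ring
  · intro i k l
    simp only [Qf]
    ring

/-! ### the charts of the blow-up -/

/-- the direction -/
def ze (j : Fin 4) (v : V) : V := fun i => if i = j then 1 else v i

theorem bd_ze (j : Fin 4) (v : V) (i : Fin 4) : bd j v i = v j * ze j v i := by
  unfold bd ze
  by_cases h : i = j <;> simp [h]

/-- the norm of the direction -/
def nz (j : Fin 4) (v : V) : ℝ := na (ze j v) + nb (ze j v)

theorem nz_pos (j : Fin 4) (v : V) : 0 < nz j v := by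
  have h := norm_sq_le (ze j v) j
  have h1 : ze j v j = 1 := by simp [ze]
  rw [h1] at h
  unfold nz
  have : ‖(1 : ℂ)‖ ^ 2 = 1 := by simp
  linarith

/-- the parametrisations of the blow-up -/
def BI (j : Fin 4) (v : V) : Amb :=
  (XI false false (bd j v), fun i k =>
    (((XI false false (bd j v)).1 * (XI false false (bd j v)).2.1 : ℝ) : ℂ) *
      (ze j v i * conj (ze j v k)) / (nz j v : ℂ))

/-- the coordinates of the blow-up -/
def BF (j : Fin 4) (m : Amb) : V := fun i =>
  if i = j then XF false false m.1 j else m.2 i j / m.2 j j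

theorem sc_diag (x : ℝ) (w : V) (i : Fin 4) : sc x x w i = (x : ℂ) * w i := by
  fin_cases i <;> apply Complex.ext <;> simp [sc]

theorem W_of_XI (w : V) (i : Fin 4) : W (XI false false w) i =
    (((XI false false w).1 * (XI false false w).2.1 : ℝ) : ℂ) * w i := by
  unfold W XI
  simp only [rho_ff]
  rw [sc_sc]
  simp only [fa, Bool.false_eq_true, if_false]
  rw [mul_comm (1 + nb w)⁻¹, sc_diag]

theorem BI_mem (j : Fin 4) (v : V) : BI j v ∈ MS := by
  refine ⟨XI_isX _ _ _, ?_, ?_, ?_, ?_⟩
  · intro i k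
    simp only [BI]
    rw [map_div₀, map_mul, map_mul, Complex.conj_conj, Complex.conj_ofReal, Complex.conj_ofReal]
    ring
  · intro i j k l
    simp only [BI]
    ring
  · simp only [BI]
    rw [← Finset.sum_div, ← Finset.mul_sum, sum_norm]
    have h : ((nz j v : ℝ) : ℂ) ≠ 0 := by exact_mod_cast (nz_pos j v).ne'
    exact mul_div_cancel_right₀ _ h
  · intro i k l
    simp only [BI]
    rw [W_of_XI, W_of_XI, bd_ze, bd_ze]
    ring

theorem pos_ab (w : V) : 0 < (XI false false w).1 * (XI false false w).2.1 := by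
  simp only [XI, fa, Bool.false_eq_true, if_false]
  exact mul_pos (inv_pos.mpr (pos_na w)) (inv_pos.mpr (pos_nb w))

theorem BI_ne (j : Fin 4) (v : V) (k : Fin 4) : (BI j v).2 k k ≠ 0 ↔ ze j v k ≠ 0 := by
  have h : ((nz j v : ℝ) : ℂ) ≠ 0 := by exact_mod_cast (nz_pos j v).ne'
  have h2 : (((XI false false (bd j v)).1 * (XI false false (bd j v)).2.1 : ℝ) : ℂ) ≠ 0 := by
    exact_mod_cast (pos_ab _).ne'
  simp only [BI]
  constructor
  · intro h3 h4
    apply h3
    rw [h4]; simp
  · intro h3
    exact div_ne_zero (mul_ne_zero h2 (mul_ne_zero h3 ((map_ne_zero _).mpr h3))) h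

theorem BI_div (j : Fin 4) (v : V) (i k : Fin 4) (hk : ze j v k ≠ 0) :
    (BI j v).2 i k / (BI j v).2 k k = ze j v i / ze j v k := by
  have h : ((nz j v : ℝ) : ℂ) ≠ 0 := by exact_mod_cast (nz_pos j v).ne'
  have h2 : (((XI false false (bd j v)).1 * (XI false false (bd j v)).2.1 : ℝ) : ℂ) ≠ 0 := by
    exact_mod_cast (pos_ab _).ne'
  have h3 : conj (ze j v k) ≠ 0 := (map_ne_zero _).mpr hk
  simp only [BI]
  field_simp

theorem BF_BI (j : Fin 4) (v : V) : BF j (BI j v) = v := by
  funext i
  unfold BF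
  by_cases h : i = j
  · subst h
    rw [if_pos rfl]
    simp only [BI]
    rw [XF_XI]
    simp [bd]
  · rw [if_neg h, BI_div j v i j (by simp [ze])]
    simp [ze, h]

theorem Q_ne_ab {m : Amb} (hm : m ∈ MS) {j : Fin 4} (hj : m.2 j j ≠ 0) : m.1.1 * m.1.2.1 ≠ 0 := by
  intro h0
  have h2 := Q_le hm j j
  rw [h0] at h2
  have h3 : ‖m.2 j j‖ ^ 2 = 0 := le_antisymm (by simpa using h2) (by positivity)
  exact hj (norm_eq_zero.mp (pow_eq_zero_iff (by norm_num) |>.mp h3))

theorem BI_BF {m : Amb} (hm : m ∈ MS) {j : Fin 4} (hj : m.2 j j ≠ 0) : BI j (BF j m) = m := by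
  have hab := Q_ne_ab hm hj
  have ha : m.1.1 ≠ 0 := left_ne_zero_of_mul hab
  have hb : m.1.2.1 ≠ 0 := right_ne_zero_of_mul hab
  have hXI : XI false false (XF false false m.1) = m.1 :=
    XI_XF false false hm.1 (by simpa [fa] using ha) (by simpa [fa] using hb)
  have hW : ∀ i, W m.1 i = ((m.1.1 * m.1.2.1 : ℝ) : ℂ) * XF false false m.1 i := by
    intro i
    have := W_of_XI (XF false false m.1) i
    rw [hXI] at this
    exact this
  have habc : ((m.1.1 * m.1.2.1 : ℝ) : ℂ) ≠ 0 := by exact_mod_cast hab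
  obtain ⟨hX, h2, h3, h4, h5⟩ := hm
  have hze : ∀ i, ze j (BF j m) i = m.2 i j / m.2 j j := by
    intro i
    unfold ze BF
    by_cases h : i = j
    · subst h; simp [hj]
    · simp [h]
  have hbd : bd j (BF j m) = XF false false m.1 := by
    funext i
    rw [bd_ze, hze]
    have e1 : BF j m j = XF false false m.1 j := by simp [BF]
    rw [e1, mul_div_assoc', div_eq_iff hj]
    have e2 := h5 i j j
    rw [hW, hW] at e2
    apply mul_left_cancel₀ habc
    rw [← mul_assoc, ← e2]
    ring
  have hreal : conj (m.2 j j) = m.2 j j := (h2 j j).symm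
  have hQ : ∀ i k, m.2 i k = m.2 j j * (ze j (BF j m) i * conj (ze j (BF j m) k)) := by
    intro i k
    rw [hze, hze, map_div₀, hreal, ← h2 k j]
    have := h3 i k j j
    field_simp
    rw [this]
  have htr : m.2 j j * ((nz j (BF j m) : ℝ) : ℂ) = ((m.1.1 * m.1.2.1 : ℝ) : ℂ) := by
    rw [← h4]
    unfold nz
    rw [← sum_norm, Finset.mul_sum]
    exact Finset.sum_congr rfl fun i _ => (hQ i i).symm
  have h : ((nz j (BF j m) : ℝ) : ℂ) ≠ 0 := by exact_mod_cast (nz_pos j _).ne'
  refine Prod.ext ?_ ?_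
  · simp only [BI]
    rw [hbd, hXI]
  · funext i k
    simp only [BI]
    rw [hbd, hXI, ← htr, hQ i k]
    field_simp

theorem cont_BI (j : Fin 4) : Continuous (BI j) := by
  have hb : Continuous (bd j) := by
    apply continuous_pi
    intro i
    unfold bd
    by_cases h : i = j
    · simp only [h, if_true]; fun_prop
    · simp only [h, if_false]; fun_prop
  have hz : Continuous (ze j) := by
    apply continuous_pi
    intro i
    unfold ze
    by_cases h : i = j
    · simp only [h, if_true]; fun_prop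
    · simp only [h, if_false]; fun_prop
  have hX : Continuous (fun v => XI false false (bd j v)) := (cont_XI _ _).comp hb
  refine hX.prodMk ?_
  apply continuous_pi
  intro i
  apply continuous_pi
  intro k
  have hn : Continuous (nz j) := (cont_na.comp hz).add (cont_nb.comp hz)
  refine Continuous.div ?_ (Complex.continuous_ofReal.comp hn)
    (fun v => by exact_mod_cast (nz_pos j v).ne')
  exact (Complex.continuous_ofReal.comp ((continuous_fst.comp hX).mul
    ((continuous_fst.comp continuous_snd).comp hX))).mul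
    (((continuous_apply i).comp hz).mul (Complex.continuous_conj.comp ((continuous_apply k).comp hz)))

/-! ### the model -/

/-- the space -/
abbrev MM : Type := ↥MS

/-- constructor for charts -/
def mkChart (s : Set MM) (hs : IsOpen s) (f : MM → V) (g : V → MM) (hf : ContinuousOn f s)
    (hg : Continuous g) (h1 : ∀ q, g q ∈ s) (h2 : ∀ q, f (g q) = q) (h3 : ∀ m ∈ s, g (f m) = m) :
    OpenPartialHomeomorph MM V where
  toFun := f
  invFun := g
  source := s
  target := univ
  map_source' := fun _ _ => mem_univ _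
  map_target' := fun q _ => h1 q
  left_inv' := fun m hm => h3 m hm
  right_inv' := fun q _ => h2 q
  open_source := hs
  open_target := isOpen_univ
  continuousOn_toFun := hf
  continuousOn_invFun := hg.continuousOn

theorem not11 (x y : Bool) (h : (x || y) = true) (q : V) :
    ¬ ((XI x y q).1 = 1 ∧ (XI x y q).2.1 = 1) := by
  have h1 : (1 + na q)⁻¹ ≠ 0 := inv_ne_zero (pos_na q).ne'
  have h2 : (1 + nb q)⁻¹ ≠ 0 := inv_ne_zero (pos_nb q).ne'
  rintro ⟨e1, e2⟩
  cases x
  · cases y
    · simp at h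
    · simp only [XI, fa, if_true] at e2
      exact h2 (by linarith)
  · simp only [XI, fa, if_true] at e1
    exact h1 (by linarith)

/-- charts of the blow-up -/
def chB (j : Fin 4) : OpenPartialHomeomorph MM V :=
  mkChart {m | m.1.2 j j ≠ 0}
    (isOpen_ne_fun (((continuous_apply j).comp ((continuous_apply j).comp
      (continuous_snd.comp continuous_subtype_val)))) continuous_const)
    (fun m => BF j m.1) (fun v => ⟨BI j v, BI_mem j v⟩)
    (by
      apply continuousOn_pi.mpr
      intro i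
      unfold BF
      by_cases h : i = j
      · subst h
        simp only [if_true]
        have h1 : ContinuousOn (fun m : MM => XF false false m.1.1)
            {m | m.1.2 i i ≠ 0} := by
          refine (cont_XF false false).comp
            (continuous_fst.comp continuous_subtype_val).continuousOn ?_
          intro m hm
          have hab := Q_ne_ab m.2 hm
          have ha : m.1.1.1 ≠ 0 := left_ne_zero_of_mul hab
          have hb : m.1.1.2.1 ≠ 0 := right_ne_zero_of_mul hab
          exact ⟨by simpa [fa] using ha, by simpa [fa] using hb⟩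
        exact (continuous_apply i).comp_continuousOn h1
      · simp only [h, if_false]
        refine ContinuousOn.div ?_ ?_ (fun m hm => hm)
        · exact ((continuous_apply j).comp ((continuous_apply i).comp
            (continuous_snd.comp continuous_subtype_val))).continuousOn
        · exact ((continuous_apply j).comp ((continuous_apply j).comp
            (continuous_snd.comp continuous_subtype_val))).continuousOn)
    ((cont_BI j).subtype_mk _)
    (fun v => (BI_ne j v j).mpr (by simp [ze]))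
    (fun v => BF_BI j v)
    (fun m hm => Subtype.ext (BI_BF m.2 hm))

/-- charts of the complement of the point -/
def chX (x y : Bool) (h : (x || y) = true) : OpenPartialHomeomorph MM V :=
  mkChart {m | fa x m.1.1.1 ≠ 0 ∧ fa y m.1.1.2.1 ≠ 0}
    ((isOpen_ne_fun ((cont_fa x).comp (continuous_fst.comp (continuous_fst.comp
      continuous_subtype_val))) continuous_const).inter
      (isOpen_ne_fun ((cont_fa y).comp (continuous_fst.comp (continuous_snd.comp
        (continuous_fst.comp continuous_subtype_val)))) continuous_const))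
    (fun m => XF x y m.1.1)
    (fun q => ⟨(XI x y q, Qf (XI x y q)), Qf_mem (XI_isX x y q) (not11 x y h q)⟩)
    ((cont_XF x y).comp (continuous_fst.comp continuous_subtype_val).continuousOn
      (fun m hm => hm))
    (((cont_XI x y).prodMk (continuous_pi fun i => continuous_pi fun k =>
      cont_Qf (cont_XI x y) (XI_isX x y) (not11 x y h) i k)).subtype_mk _)
    (fun q => ⟨(aux3 x x (pos_na q)).mpr (by simp), (aux3 y y (pos_nb q)).mpr (by simp)⟩)
    (fun q => XF_XI x y q)
    (fun m hm => by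
      have e : XI x y (XF x y m.1.1) = m.1.1 := XI_XF x y m.2.1 hm.1 hm.2
      have h1 : ¬ (m.1.1.1 = 1 ∧ m.1.1.2.1 = 1) := by
        rintro ⟨e1, e2⟩
        have h2 := hm.1
        have h3 := hm.2
        cases x
        · cases y
          · simp at h
          · apply h3; simp [fa, e2]
        · apply h2; simp [fa, e1]
      apply Subtype.ext
      refine Prod.ext e ?_
      funext i k
      simp only
      rw [e, Q_eq m.2 h1])

/-- the bits -/
def bits : Fin 3 → Bool × Bool := ![(true, false), (false, true), (true, true)]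

theorem bits_or (c : Fin 3) : ((bits c).1 || (bits c).2) = true := by
  fin_cases c <;> rfl

/-- all charts -/
def phi : Idx → OpenPartialHomeomorph MM V
  | Sum.inl j => chB j
  | Sum.inr c => chX (bits c).1 (bits c).2 (bits_or c)

theorem tq_tf : tq true false = invA := by
  funext q
  apply V_ext
  intro i
  fin_cases i <;> simp [tq, rho, sc, invA, div_eq_inv_mul]

theorem tq_ft : tq false true = invB := by
  funext q
  apply V_ext
  intro i
  fin_cases i <;> simp [tq, rho, sc, invB, div_eq_inv_mul]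

theorem na_invB (q : V) : na (invB q) = na q := by
  simp [na, invB]

theorem tq_tt : tq true true = fun q => invA (invB q) := by
  funext q
  apply V_ext
  intro i
  fin_cases i <;> simp [tq, rho, sc, invA, na_invB] <;> simp [invB, div_eq_inv_mul]

theorem toW_inr (c : Fin 3) : toW (Sum.inr c) = tq (bits c).1 (bits c).2 := by
  fin_cases c
  · exact tq_tf.symm
  · exact tq_ft.symm
  · exact tq_tt.symm

theorem fromW_inr (c : Fin 3) : fromW (Sum.inr c) = tq (bits c).1 (bits c).2 := by
  fin_cases c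
  · exact tq_tf.symm
  · exact tq_ft.symm
  · exact tq_tt.symm

theorem domW_inr (c : Fin 3) (q : V) : q ∈ domW (Sum.inr c) ↔
    ((bits c).1 = true → na q ≠ 0) ∧ ((bits c).2 = true → nb q ≠ 0) := by
  fin_cases c <;> simp [domW, bits]

theorem rngW_inr (c : Fin 3) (q : V) : q ∈ rngW (Sum.inr c) ↔
    ((bits c).1 = true → na q ≠ 0) ∧ ((bits c).2 = true → nb q ≠ 0) := by
  fin_cases c <;> simp [rngW, bits]

theorem O_inr (c d : Fin 3) (q : V) : q ∈ O (Sum.inr c) (Sum.inr d) ↔
    (xor (bits c).1 (bits d).1 = true → na q ≠ 0) ∧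
      (xor (bits c).2 (bits d).2 = true → nb q ≠ 0) := by
  fin_cases c <;> fin_cases d <;> simp [O, bits]

theorem tr_inr (c d : Fin 3) : tr (Sum.inr c) (Sum.inr d) =
    tq (xor (bits c).1 (bits d).1) (xor (bits c).2 (bits d).2) := by
  have hff : tq false false = id := funext tq_ff
  fin_cases c <;> fin_cases d <;> simp [tr, bits, hff, tq_tf, tq_ft, tq_tt]

theorem XW {x y : Bool} {q : V} (hab : (XI x y q).1 * (XI x y q).2.1 ≠ 0) :
    (x = true → na q ≠ 0) ∧ (y = true → nb q ≠ 0) := by
  have ha := left_ne_zero_of_mul hab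
  have hb := right_ne_zero_of_mul hab
  constructor
  · have := (aux3 x false (pos_na q)).mp (by simpa [fa, XI] using ha)
    rwa [Bool.xor_false] at this
  · have := (aux3 y false (pos_nb q)).mp (by simpa [fa, XI] using hb)
    rwa [Bool.xor_false] at this

theorem model : Nonempty (Model MM) := by
  refine ⟨⟨phi, ?_, ?_, ?_, ?_⟩⟩
  · rintro (j | c) <;> rfl
  · intro m
    by_cases h : ∃ j, m.1.2 j j ≠ 0
    · obtain ⟨j, hj⟩ := h
      exact ⟨Sum.inl j, hj⟩
    · push Not at h
      have h4 := m.2.2.2.2.1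
      rw [Finset.sum_eq_zero (fun i _ => h i)] at h4
      have h5 : m.1.1.1 * m.1.1.2.1 = 0 := by exact_mod_cast h4.symm
      by_cases ha : m.1.1.1 = 0
      · by_cases hb : m.1.1.2.1 = 0
        · refine ⟨Sum.inr 2, ?_, ?_⟩
          · change fa true m.1.1.1 ≠ 0
            rw [ha]; simp [fa]
          · change fa true m.1.1.2.1 ≠ 0
            rw [hb]; simp [fa]
        · refine ⟨Sum.inr 0, ?_, ?_⟩
          · change fa true m.1.1.1 ≠ 0
            rw [ha]; simp [fa]
          · change fa false m.1.1.2.1 ≠ 0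
            simpa [fa] using hb
      · have hb : m.1.1.2.1 = 0 := by
          rcases mul_eq_zero.mp h5 with e | e
          · exact absurd e ha
          · exact e
        refine ⟨Sum.inr 1, ?_, ?_⟩
        · change fa false m.1.1.1 ≠ 0
          simpa [fa] using ha
        · change fa true m.1.1.2.1 ≠ 0
          rw [hb]; simp [fa]
  · rintro (j | c) (k | d) q
    · change (BI j q).2 k k ≠ 0 ↔ _
      rw [BI_ne]
      simp only [O]
      by_cases h : j = k
      · subst h; simp [ze]
      · rw [if_neg h]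
        simp [ze, Ne.symm h]
    · change (fa (bits d).1 (XI false false (bd j q)).1 ≠ 0 ∧
        fa (bits d).2 (XI false false (bd j q)).2.1 ≠ 0) ↔ _
      simp only [XI]
      rw [aux3 false _ (pos_na _), aux3 false _ (pos_nb _), Bool.false_xor, Bool.false_xor]
      simp only [O, mem_setOf_eq]
      rw [rngW_inr]
      change _ ↔ q j ≠ 0 ∧ _
      constructor
      · intro h
        refine ⟨?_, h⟩
        intro h0
        have e : bd j q = 0 := by
          funext i
          rw [bd_ze, h0, zero_mul]; rfl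
        rw [e] at h
        have hor := bits_or d
        rcases Bool.or_eq_true _ _ ▸ hor with hx | hy
        · exact h.1 hx (by simp [na])
        · exact h.2 hy (by simp [nb])
      · exact fun h => h.2
    · change Qf (XI (bits c).1 (bits c).2 q) k k ≠ 0 ↔ _
      set x := (bits c).1 with hx
      set y := (bits c).2 with hy
      have hor : (x || y) = true := bits_or c
      simp only [O, mem_setOf_eq]
      rw [domW_inr, toW_inr, ← hx, ← hy]
      change _ ↔ _ ∧ tq x y q k ≠ 0
      constructor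
      · intro h
        have hab : (XI x y q).1 * (XI x y q).2.1 ≠ 0 := by
          intro h0
          apply h
          unfold Qf
          rw [W_zero (XI_isX x y q) (Or.inl h0)]
          simp
        have hd := XW hab
        refine ⟨hd, ?_⟩
        intro h0
        apply h
        have e := W_of_XI (tq x y q) k
        rw [XI_tq x y q hd.1 hd.2, h0, mul_zero] at e
        unfold Qf
        rw [e]; simp
      · rintro ⟨hd, h0⟩
        have e := W_of_XI (tq x y q) k
        have hab := pos_ab (tq x y q)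
        rw [XI_tq x y q hd.1 hd.2] at e hab
        have hW : W (XI x y q) k ≠ 0 := by
          rw [e]
          exact mul_ne_zero (by exact_mod_cast hab.ne') h0
        have hD : Dp (XI x y q) ≠ 0 := by
          intro hD
          obtain ⟨e1, -⟩ := Dp_zero (XI_isX x y q) hD (not11 x y hor q)
          rw [e1, zero_mul] at hab
          exact lt_irrefl _ hab
        unfold Qf
        exact div_ne_zero (mul_ne_zero hW ((map_ne_zero _).mpr hW)) (by exact_mod_cast hD)
    · change (fa (bits d).1 (XI (bits c).1 (bits c).2 q).1 ≠ 0 ∧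
        fa (bits d).2 (XI (bits c).1 (bits c).2 q).2.1 ≠ 0) ↔ _
      rw [O_inr]
      simp only [XI]
      rw [aux3 _ _ (pos_na _), aux3 _ _ (pos_nb _)]
  · rintro (j | c) (k | d) q hq
    · change BF k (BI j q) = _
      by_cases h : j = k
      · subst h
        rw [BF_BI]; simp [tr]
      · have hk : q k ≠ 0 := by simpa [O, h] using hq
        have hzk : ze j q k = q k := by simp [ze, Ne.symm h]
        simp only [tr, h, if_false]
        funext i
        unfold BF
        by_cases hi : i = k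
        · subst hi
          rw [if_pos rfl, if_pos rfl]
          simp only [BI]
          rw [XF_XI, bd_ze, hzk]
        · rw [if_neg hi, if_neg hi, BI_div j q i k (by rw [hzk]; exact hk), hzk]
          by_cases hij : i = j
          · rw [if_pos hij]
            simp [ze, hij]
          · rw [if_neg hij]
            simp [ze, hij]
    · change XF (bits d).1 (bits d).2 (XI false false (bd j q)) = fromW (Sum.inr d) (bd j q)
      rw [XF_XI', Bool.false_xor, Bool.false_xor, fromW_inr]
    · change BF k (XI (bits c).1 (bits c).2 q, Qf (XI (bits c).1 (bits c).2 q)) =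
        bu k (toW (Sum.inr c) q)
      have hq' : q ∈ domW (Sum.inr c) ∧ toW (Sum.inr c) q k ≠ 0 := hq
      rw [domW_inr, toW_inr] at hq'
      rw [toW_inr]
      set x := (bits c).1 with hx
      set y := (bits c).2 with hy
      have hor : (x || y) = true := bits_or c
      obtain ⟨hd, h0⟩ := hq'
      have e := W_of_XI (tq x y q)
      have hab := pos_ab (tq x y q)
      rw [XI_tq x y q hd.1 hd.2] at e hab
      have habc : (((XI x y q).1 * (XI x y q).2.1 : ℝ) : ℂ) ≠ 0 := by exact_mod_cast hab.ne'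
      have hW : W (XI x y q) k ≠ 0 := by
        rw [e]
        exact mul_ne_zero habc h0
      have hD : Dp (XI x y q) ≠ 0 := by
        intro hD
        obtain ⟨e1, -⟩ := Dp_zero (XI_isX x y q) hD (not11 x y hor q)
        rw [e1, zero_mul] at hab
        exact lt_irrefl _ hab
      have hDc : ((Dp (XI x y q) : ℝ) : ℂ) ≠ 0 := by exact_mod_cast hD
      have hWc : conj (W (XI x y q) k) ≠ 0 := (map_ne_zero _).mpr hW
      funext i
      unfold BF bu
      by_cases hi : i = k
      · subst hi
        rw [if_pos rfl, if_pos rfl]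
        simp only
        rw [XF_XI', Bool.xor_false, Bool.xor_false]
      · rw [if_neg hi, if_neg hi]
        simp only [Qf]
        have e1 : W (XI x y q) i * conj (W (XI x y q) k) / ((Dp (XI x y q) : ℝ) : ℂ) /
            (W (XI x y q) k * conj (W (XI x y q) k) / ((Dp (XI x y q) : ℝ) : ℂ)) =
            W (XI x y q) i / W (XI x y q) k := by
          field_simp
        rw [e1, e i, e k, mul_div_mul_left _ _ habc]
    · change XF (bits d).1 (bits d).2 (XI (bits c).1 (bits c).2 q) = _
      rw [XF_XI', tr_inr]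

end Pool.Agent.TH11.SD1

namespace Pool.Agent.TH179.SD.X11
open Pool.Agent.TH179.SD

theorem taskModel : TaskModel := by
  refine ⟨Pool.Agent.TH11.SD1.MM, inferInstance, ?_, inferInstance, Pool.Agent.TH11.SD1.model⟩
  exact isCompact_iff_compactSpace.mp Pool.Agent.TH11.SD1.MS_compact

end Pool.Agent.TH179.SD.X11
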